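import Mathlib
import Pool.Agent.T9h20.W.Defs

/-!
The approximation method for monotone real circuits with gates of bounded fan-in, abstractly: the
families approximate the sets of inputs on which the value is at least `t`.
-/

namespace Pool.Agent.T9h8.SC

open Finset Pool.Agent.T9h20

set_option linter.unusedSectionVars false
set_option linter.unusedVariables false

section Abs

variable {T X W ι : Type} [Fintype T] [Fintype X] [Fintype W]
variable {ok : T → Prop} {R : T → T → Prop} {rank : T → ℕ} {pos : X → T → Prop}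
variable {neg : W → T → Prop} {Cross : T → T → Prop} {t₀ : T} {M B ρ Δ : ℕ}

open Classical in
/-- A family is closed if it contains every term which is new for at most `Δ` elements. -/
def Closed (ok : T → Prop) (neg : W → T → Prop) (Δ : ℕ) (U : Finset T) : Prop :=
  ∀ τ, ok τ → (univ.filter (fun w => neg w τ ∧ ∀ t ∈ U, ¬ neg w t)).card ≤ Δ → τ ∈ U

open Classical in
/-- The closure of a family. -/
noncomputable def clo (ok : T → Prop) (neg : W → T → Prop) (Δ : ℕ) (S : Finset T) : Finset T :=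
  univ.filter (fun t => ok t ∧ ∀ U : Finset T, (∀ u ∈ U, ok u) → Closed ok neg Δ U → S ⊆ U → t ∈ U)

lemma mem_clo {S : Finset T} {t : T} : t ∈ clo ok neg Δ S ↔
    ok t ∧ ∀ U : Finset T, (∀ u ∈ U, ok u) → Closed ok neg Δ U → S ⊆ U → t ∈ U := by
  classical
  unfold clo
  rw [mem_filter]
  exact ⟨fun h => h.2, fun h => ⟨mem_univ _, h⟩⟩

lemma clo_ok {S : Finset T} : ∀ t ∈ clo ok neg Δ S, ok t := fun _ h => (mem_clo.1 h).1

lemma subset_clo {S : Finset T} (hS : ∀ t ∈ S, ok t) : S ⊆ clo ok neg Δ S :=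
  fun t ht => mem_clo.2 ⟨hS t ht, fun _ _ _ h => h ht⟩

lemma clo_mono {S S' : Finset T} (h : S ⊆ S') : clo ok neg Δ S ⊆ clo ok neg Δ S' :=
  fun t ht => mem_clo.2 ⟨(mem_clo.1 ht).1, fun U h1 h2 h3 => (mem_clo.1 ht).2 U h1 h2 (h.trans h3)⟩

lemma clo_closed (S : Finset T) : Closed ok neg Δ (clo ok neg Δ S) := by
  classical
  intro t ht hc
  rw [mem_clo]
  refine ⟨ht, ?_⟩
  intro U h1 h2 h3
  apply h2 t ht
  refine (card_le_card ?_).trans hc
  intro w hw
  rw [mem_filter] at hw ⊢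
  exact ⟨hw.1, hw.2.1, fun t' ht' => hw.2.2 t' ((mem_clo.1 ht').2 U h1 h2 h3)⟩

open Classical in
lemma exists_closure {S : Finset T} (hS : ∀ t ∈ S, ok t) :
    ∃ U : Finset T, S ⊆ U ∧ (∀ u ∈ U, ok u) ∧ Closed ok neg Δ U ∧
      (univ.filter (fun w => (∃ t ∈ U, neg w t) ∧ ∀ t ∈ S, ¬ neg w t)).card
        ≤ Fintype.card T * Δ := by
  obtain ⟨F, hF⟩ : ∃ F : Finset (Finset T), F = univ.filter (fun U : Finset T =>
    S ⊆ U ∧ (∀ u ∈ U, ok u) ∧
      (univ.filter (fun w => (∃ t ∈ U, neg w t) ∧ ∀ t ∈ S, ¬ neg w t)).card ≤ U.card * Δ) :=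
    ⟨_, rfl⟩
  have hFne : F.Nonempty := by
    refine ⟨S, ?_⟩
    rw [hF, mem_filter]
    refine ⟨mem_univ _, Subset.refl _, hS, ?_⟩
    have h0 : univ.filter (fun w => (∃ t ∈ S, neg w t) ∧ ∀ t ∈ S, ¬ neg w t) = (∅ : Finset W) := by
      apply filter_false_of_mem
      rintro w _ ⟨⟨t, ht, h1⟩, h2⟩
      exact h2 t ht h1
    rw [h0]
    simp
  obtain ⟨U, hU, hmax⟩ := exists_max_image F (fun U => U.card) hFne
  rw [hF, mem_filter] at hU
  obtain ⟨_, g1, g2, g3⟩ := hU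
  refine ⟨U, g1, g2, ?_, g3.trans (Nat.mul_le_mul_right _ (card_le_univ _))⟩
  intro τ hτ hc
  by_contra hcon
  have h1 : insert τ U ∈ F := by
    rw [hF, mem_filter]
    refine ⟨mem_univ _, g1.trans (subset_insert _ _), ?_, ?_⟩
    · intro u hu
      rcases mem_insert.1 hu with rfl | hu
      · exact hτ
      · exact g2 u hu
    · rw [card_insert_of_notMem hcon, add_mul, one_mul]
      refine le_trans ?_ (Nat.add_le_add g3 hc)
      refine le_trans (card_le_card ?_) (card_union_le _ _)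
      intro w hw
      rw [mem_filter] at hw
      rw [mem_union, mem_filter, mem_filter]
      obtain ⟨_, ⟨t, ht, hwt⟩, h2⟩ := hw
      by_cases h3 : ∃ t ∈ U, neg w t
      · exact Or.inl ⟨mem_univ _, h3, h2⟩
      · right
        push Not at h3
        refine ⟨mem_univ _, ?_, h3⟩
        rcases mem_insert.1 ht with rfl | ht
        · exact hwt
        · exact absurd hwt (h3 t ht)
  have h2 := hmax _ h1
  rw [card_insert_of_notMem hcon] at h2
  omega

open Classical in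
lemma clo_err {S : Finset T} (hS : ∀ t ∈ S, ok t) :
    (univ.filter (fun w => (∃ t ∈ clo ok neg Δ S, neg w t) ∧ ∀ t ∈ S, ¬ neg w t)).card
      ≤ Fintype.card T * Δ := by
  obtain ⟨U, h1, h2, h3, h4⟩ := exists_closure (neg := neg) (Δ := Δ) hS
  refine (card_le_card ?_).trans h4
  intro w hw
  rw [mem_filter] at hw ⊢
  obtain ⟨_, ⟨t, ht, hwt⟩, h5⟩ := hw
  exact ⟨mem_univ _, ⟨t, (mem_clo.1 ht).2 U h2 h3 h1, hwt⟩, h5⟩

open Classical in
/-- The number of elements for which the closure of some member of a chain of families introduces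
a new term. -/
lemma chain_err (S : ℝ → Finset T) (hS : ∀ t, ∀ τ ∈ S t, ok τ) (hmono : ∀ s t, s ≤ t → S t ⊆ S s) :
    (univ.filter (fun w => ∃ t, (∃ τ ∈ clo ok neg Δ (S t), neg w τ) ∧ ∀ τ ∈ S t, ¬ neg w τ)).card
      ≤ (Fintype.card T + 1) * (Fintype.card T * Δ) := by
  have h1 : univ.filter (fun w => ∃ t, (∃ τ ∈ clo ok neg Δ (S t), neg w τ) ∧
      ∀ τ ∈ S t, ¬ neg w τ) ⊆ (range (Fintype.card T + 1)).biUnion (fun m =>
        univ.filter (fun w => ∃ t, (S t).card = m ∧ (∃ τ ∈ clo ok neg Δ (S t), neg w τ) ∧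
          ∀ τ ∈ S t, ¬ neg w τ)) := by
    intro w hw
    rw [mem_filter] at hw
    obtain ⟨_, t, h2, h3⟩ := hw
    rw [mem_biUnion]
    refine ⟨(S t).card, ?_, ?_⟩
    · rw [mem_range]
      have := card_le_univ (S t)
      omega
    · rw [mem_filter]
      exact ⟨mem_univ _, t, rfl, h2, h3⟩
  refine (card_le_card h1).trans ?_
  have h2 := card_biUnion_le_card_mul (range (Fintype.card T + 1)) (fun m =>
        univ.filter (fun w => ∃ t, (S t).card = m ∧ (∃ τ ∈ clo ok neg Δ (S t), neg w τ) ∧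
          ∀ τ ∈ S t, ¬ neg w τ)) (Fintype.card T * Δ) (by
    intro m _
    by_cases hm : ∃ t, (S t).card = m
    · obtain ⟨t1, ht1⟩ := hm
      refine le_trans (card_le_card ?_) (clo_err (neg := neg) (Δ := Δ) (hS t1))
      intro w hw
      rw [mem_filter] at hw ⊢
      obtain ⟨_, t, ht, hr⟩ := hw
      have heq : S t = S t1 := by
        rcases le_total t t1 with h | h
        · exact (eq_of_subset_of_card_le (hmono _ _ h) (by rw [ht, ht1])).symm
        · exact eq_of_subset_of_card_le (hmono _ _ h) (by rw [ht, ht1])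
      rw [heq] at hr
      exact ⟨mem_univ _, hr⟩
    · rw [filter_false_of_mem]
      · simp
      · rintro w _ ⟨t, ht, _⟩
        exact hm ⟨t, ht⟩)
  rw [card_range] at h2
  exact h2

/-- Closed families are closed under refinement. -/
lemma Closed.up {U : Finset T} (hU : Closed ok neg Δ U) (hneg : ∀ w a b, neg w a → R a b → neg w b)
    {t t' : T} (ht : t ∈ U) (ht' : ok t') (h : R t' t) : t' ∈ U := by
  classical
  apply hU t' ht'
  rw [filter_false_of_mem]
  · simp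
  · rintro w _ ⟨h1, h2⟩
    exact h2 t ht (hneg w _ _ h1 h)

open Classical in
/-- The refinements of `τ` which are coarsest among the refinements of `τ` in the first family of
the chain to contain them. -/
noncomputable def fst (R : T → T → Prop) (U : ℝ → Finset T) (τ : T) : Finset T :=
  univ.filter (fun t => R t τ ∧ ∃ u, t ∈ U u ∧ (∀ s ∈ U u, R s τ → R t s → R s t) ∧
    ∀ u', t ∈ U u' → U u ⊆ U u')

lemma mem_fst {U : ℝ → Finset T} {τ t : T} :
    t ∈ fst R U τ ↔ R t τ ∧ ∃ u, t ∈ U u ∧ (∀ s ∈ U u, R s τ → R t s → R s t) ∧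
    ∀ u', t ∈ U u' → U u ⊆ U u' := by
  classical
  unfold fst
  rw [mem_filter]
  exact ⟨fun h => h.2, fun h => ⟨mem_univ _, h⟩⟩

open Classical in
/-- The plucking hypothesis. -/
def Pluck (ok : T → Prop) (R : T → T → Prop) (rank : T → ℕ) (neg : W → T → Prop) (B Δ : ℕ) :
    Prop :=
  ∀ (S : Finset T) (τ : T) (r : ℕ), (∀ t ∈ S, ok t ∧ R t τ ∧ rank t = r) → B < S.card →
    ∃ s, ∃ L ⊆ S, L.Nonempty ∧ R s τ ∧ (∀ t ∈ L, R t s ∧ ¬ R s t) ∧
      (univ.filter (fun w => neg w s ∧ ∀ t ∈ L, ¬ neg w t)).card ≤ Δ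

open Classical in
lemma fst_level (hup : ∀ a b, ok a → R a b → ok b) (hpl : Pluck ok R rank neg B Δ)
    {U : ℝ → Finset T} (hU : ∀ u, Closed ok neg Δ (U u)) (hUt : ∀ u, ∀ τ ∈ U u, ok τ)
    (hmono : ∀ s t, s ≤ t → U t ⊆ U s) (τ : T) (r : ℕ) :
    ((fst R U τ).filter (fun t => rank t = r)).card ≤ B := by
  by_contra hcon
  push Not at hcon
  have hmem : ∀ t ∈ (fst R U τ).filter (fun t => rank t = r), ok t ∧ R t τ ∧ rank t = r := by
    intro t ht
    obtain ⟨h1, h2⟩ := mem_filter.1 ht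
    obtain ⟨h3, u, hu, _⟩ := mem_fst.1 h1
    exact ⟨hUt u t hu, h3, h2⟩
  obtain ⟨s, L, g1, g2, g3, g4, g5⟩ := hpl _ τ r hmem hcon
  have hch : ∀ t ∈ L, ∃ u, t ∈ U u ∧ (∀ s ∈ U u, R s τ → R t s → R s t) := by
    intro t ht
    obtain ⟨_, u, hu, hu2, _⟩ := mem_fst.1 (mem_filter.1 (g1 ht)).1
    exact ⟨u, hu, hu2⟩
  choose! f hf hf2 using hch
  obtain ⟨tm, htm, hmax⟩ := exists_max_image L (fun t => (U (f t)).card) g2
  have hsub : ∀ t ∈ L, U (f t) ⊆ U (f tm) := by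
    intro t ht
    rcases le_total (f t) (f tm) with h | h
    · have h2 := hmono _ _ h
      rw [eq_of_subset_of_card_le h2 (hmax t ht)]
    · exact hmono _ _ h
  have hoks : ok s := by
    obtain ⟨h1, _⟩ := hmem tm (g1 htm)
    exact hup tm s h1 (g4 tm htm).1
  have hs : s ∈ U (f tm) := by
    apply hU (f tm) s hoks
    refine (card_le_card ?_).trans g5
    intro w hw
    rw [mem_filter] at hw ⊢
    exact ⟨hw.1, hw.2.1, fun t ht => hw.2.2 t (hsub t ht (hf t ht))⟩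
  exact (g4 tm htm).2 (hf2 tm htm s hs g3 (g4 tm htm).1)

lemma fst_card (hM : ∀ t, rank t ≤ M) (hup : ∀ a b, ok a → R a b → ok b)
    (hpl : Pluck ok R rank neg B Δ)
    {U : ℝ → Finset T} (hU : ∀ u, Closed ok neg Δ (U u)) (hUt : ∀ u, ∀ τ ∈ U u, ok τ)
    (hmono : ∀ s t, s ≤ t → U t ⊆ U s) (τ : T) :
    (fst R U τ).card ≤ (M + 1) * B := by
  classical
  have hmaps : ∀ t ∈ fst R U τ, rank t ∈ range (M + 1) := by
    intro t _
    rw [mem_range]
    have := hM t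
    omega
  rw [card_eq_sum_card_fiberwise hmaps]
  refine (sum_le_sum (fun l _ => fst_level hup hpl hU hUt hmono τ l)).trans ?_
  rw [sum_const, card_range, smul_eq_mul]

lemma exists_fst (hpos : ∀ x a b, pos x a → R a b → pos x b)
    (hrank : ∀ a b, R a b → ¬ R b a → rank b < rank a)
    {U : ℝ → Finset T} (hmono : ∀ s t, s ≤ t → U t ⊆ U s) {x : X} {u : ℝ} {τ : T}
    (h : ∃ t ∈ U u, pos x t ∧ R t τ) :
    ∃ t ∈ fst R U τ, pos x t ∧ t ∈ U u := by
  classical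
  obtain ⟨S, hS⟩ : ∃ S : Finset (Finset T), S = univ.filter
    (fun V => (∃ v, V = U v) ∧ ∃ t ∈ V, pos x t ∧ R t τ) := ⟨_, rfl⟩
  have hSne : S.Nonempty := by
    rw [hS]
    exact ⟨U u, mem_filter.2 ⟨mem_univ _, ⟨u, rfl⟩, h⟩⟩
  obtain ⟨V, hV, hmin⟩ := exists_min_image S (fun V => V.card) hSne
  rw [hS] at hV
  obtain ⟨_, ⟨u0, rfl⟩, hcov⟩ := mem_filter.1 hV
  have hall : ∀ v, (∃ t ∈ U v, pos x t ∧ R t τ) → U u0 ⊆ U v := by
    intro v hv
    rcases le_total u0 v with h2 | h2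
    · have h3 := hmono _ _ h2
      have h4 := hmin (U v) (by
        rw [hS]
        exact mem_filter.2 ⟨mem_univ _, ⟨v, rfl⟩, hv⟩)
      rw [eq_of_subset_of_card_le h3 h4]
    · exact hmono _ _ h2
  obtain ⟨t0, ht0, hc0⟩ := hcov
  obtain ⟨t', ht', hmin'⟩ := exists_min_image ((U u0).filter (fun t => pos x t ∧ R t τ)) rank
    ⟨t0, mem_filter.2 ⟨ht0, hc0⟩⟩
  obtain ⟨hm1, hm2, hm3⟩ := mem_filter.1 ht'
  refine ⟨t', mem_fst.2 ⟨hm3, u0, hm1, ?_, ?_⟩, hm2, hall u h hm1⟩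
  · intro s hs h5 h6
    by_contra h7
    have h8 := hrank _ _ h6 h7
    have h9 := hmin' s (mem_filter.2 ⟨hs, hpos x _ _ hm2 h6, h5⟩)
    omega
  · intro u' hu'
    exact hall u' ⟨t', hu', hm2, hm3⟩

/-- Sum over a union of finite sets. -/
lemma sum_biUnion_le {α β : Type*} [DecidableEq α] [DecidableEq β] (R : Finset α)
    (g : α → Finset β) (w : β → ℝ) (hw : ∀ b, 0 ≤ w b) :
    ∑ b ∈ R.biUnion g, w b ≤ ∑ a ∈ R, ∑ b ∈ g a, w b := by
  induction R using Finset.induction_on with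
  | empty => simp
  | insert a R ha ih =>
    rw [Finset.biUnion_insert, Finset.sum_insert ha]
    have h1 := Finset.sum_union_inter (s₁ := g a) (s₂ := R.biUnion g) (f := w)
    have h2 : 0 ≤ ∑ b ∈ g a ∩ R.biUnion g, w b := Finset.sum_nonneg (fun b _ => hw b)
    linarith

open Classical in
/-- Covering by common terms of many families, outside a small set of inputs. -/
lemma chain_cover (hrefl : ∀ a, R a a) (htr : ∀ a b c, R a b → R b c → R a c)
    (hneg : ∀ w a b, neg w a → R a b → neg w b) (hpos : ∀ x a b, pos x a → R a b → pos x b)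
    (hok0 : ok t₀) (hpos0 : ∀ x, pos x t₀) (htop : ∀ t, R t t₀)
    (hM : ∀ t, rank t ≤ M) (hrank : ∀ a b, R a b → ¬ R b a → rank b < rank a)
    (hup : ∀ a b, ok a → R a b → ok b)
    (hjoin : ∀ x a b, ok a → ok b → pos x a → pos x b → ¬ Cross a b →
      ∃ c, ok c ∧ pos x c ∧ R c a ∧ R c b)
    (hcross : ∀ a b, ok a → ok b → Cross a b →
      (univ.filter (fun x => pos x a ∧ pos x b)).card ≤ ρ)
    (hpl : Pluck ok R rank neg B Δ)
    (U : ℕ → ℝ → Finset T) (hU : ∀ i u, Closed ok neg Δ (U i u)) (hUt : ∀ i u, ∀ τ ∈ U i u, ok τ)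
    (hmono : ∀ i s t, s ≤ t → U i t ⊆ U i s)
    (θ : ℝ) (hθ0 : 0 < θ) (hθ1 : θ ≤ 1) (m : ℕ) :
    ∃ (Q : Finset T) (L : Finset X),
      (∀ τ ∈ Q, ok τ) ∧
      (∑ τ ∈ Q, θ ^ rank τ ≤ (1 + θ * ((M + 1) * B : ℕ)) ^ m) ∧
      ((L.card : ℝ) ≤ m * ((1 + θ * ((M + 1) * B : ℕ)) ^ m * ((θ ^ M)⁻¹ *
        (((M + 1) * B : ℕ) * ρ)))) ∧
      ∀ x, x ∉ L → ∀ u : ℕ → ℝ, (∀ i < m, ∃ t ∈ U i (u i), pos x t) →
        ∃ τ ∈ Q, pos x τ ∧ ∀ i < m, τ ∈ U i (u i) := by
  obtain ⟨D, hD⟩ : ∃ D : ℕ, D = (M + 1) * B := ⟨_, rfl⟩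
  rw [← hD]
  obtain ⟨Y, hY⟩ : ∃ Y : ℝ, Y = 1 + θ * (D : ℝ) := ⟨_, rfl⟩
  rw [← hY]
  have hD0 : (0 : ℝ) ≤ D := Nat.cast_nonneg _
  have hρ0 : (0 : ℝ) ≤ ρ := Nat.cast_nonneg _
  have hY1 : 1 ≤ Y := by
    rw [hY]
    have : 0 ≤ θ * (D : ℝ) := by positivity
    linarith
  have hθM : 0 < θ ^ M := pow_pos hθ0 M
  induction m with
  | zero =>
    refine ⟨{t₀}, ∅, ?_, ?_, ?_, ?_⟩
    · intro τ hτ
      rw [mem_singleton] at hτ
      rw [hτ]
      exact hok0
    · rw [sum_singleton, pow_zero]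
      exact pow_le_one₀ hθ0.le hθ1
    · simp
    · intro x _ u _
      exact ⟨t₀, mem_singleton_self _, hpos0 x, fun i hi => absurd hi (Nat.not_lt_zero _)⟩
  | succ m ih =>
    obtain ⟨Q, L, hQ1, hQ2, hL, hcov⟩ := ih
    obtain ⟨Lm, hLm⟩ : ∃ Lm : Finset X, Lm = (Q ×ˢ fst R (U m) t₀).biUnion (fun q =>
      univ.filter (fun x => (pos x q.1 ∧ pos x q.2) ∧ Cross q.1 q.2)) := ⟨_, rfl⟩
    have hQcard : (Q.card : ℝ) ≤ Y ^ m * (θ ^ M)⁻¹ := by
      have e1 : (Q.card : ℝ) * θ ^ M ≤ Y ^ m := by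
        refine le_trans ?_ hQ2
        rw [← nsmul_eq_mul, ← sum_const]
        apply sum_le_sum
        intro τ hτ
        exact pow_le_pow_of_le_one hθ0.le hθ1 (hM τ)
      rw [← div_eq_mul_inv, le_div_iff₀ hθM]
      exact e1
    have hFok : ∀ t ∈ fst R (U m) t₀, ok t := by
      intro t ht
      obtain ⟨_, u, hu, _⟩ := mem_fst.1 ht
      exact hUt m u t hu
    have hLmcard : (Lm.card : ℝ) ≤ Y ^ m * ((θ ^ M)⁻¹ * (D * ρ)) := by
      have h2 : Lm.card ≤ (Q ×ˢ fst R (U m) t₀).card * ρ := by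
        rw [hLm]
        apply card_biUnion_le_card_mul
        rintro ⟨t1, t2⟩ hq
        dsimp only
        obtain ⟨hq1, hq2⟩ := mem_product.1 hq
        by_cases hc : Cross t1 t2
        · refine (card_le_card ?_).trans (hcross t1 t2 (hQ1 t1 hq1) (hFok t2 hq2) hc)
          intro x hx
          rw [mem_filter] at hx ⊢
          exact ⟨hx.1, hx.2.1⟩
        · rw [filter_false_of_mem]
          · simp
          · rintro x _ ⟨_, h⟩
            exact hc h
      have h3 := fst_card (R := R) hM hup hpl (hU m) (hUt m) (hmono m) t₀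
      rw [← hD] at h3
      rw [card_product] at h2
      have h4 : (Lm.card : ℝ) ≤ (Q.card : ℝ) * ((fst R (U m) t₀).card : ℝ) * ρ := by
        exact_mod_cast h2
      have h5 : ((fst R (U m) t₀).card : ℝ) ≤ D := by exact_mod_cast h3
      calc (Lm.card : ℝ) ≤ (Q.card : ℝ) * ((fst R (U m) t₀).card : ℝ) * ρ := h4
        _ ≤ (Y ^ m * (θ ^ M)⁻¹) * D * ρ := by
            apply mul_le_mul_of_nonneg_right _ hρ0
            apply mul_le_mul hQcard h5 (Nat.cast_nonneg _)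
            positivity
        _ = _ := by ring
    obtain ⟨Fm, hFm⟩ : ∃ Fm : T → Finset T, Fm = fun τ =>
      (fst R (U m) τ).filter (fun t => ¬ R τ t) := ⟨_, rfl⟩
    have hmemF : ∀ τ t, t ∈ Fm τ ↔ t ∈ fst R (U m) τ ∧ ¬ R τ t := by
      intro τ t
      rw [hFm]
      exact mem_filter
    refine ⟨Q ∪ Q.biUnion Fm, L ∪ Lm, ?_, ?_, ?_, ?_⟩
    · intro τ hτ
      rcases mem_union.1 hτ with h | h
      · exact hQ1 τ h
      · obtain ⟨σ, _, hσ⟩ := mem_biUnion.1 h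
        obtain ⟨_, u, hu, _⟩ := mem_fst.1 ((hmemF σ τ).1 hσ).1
        exact hUt m u τ hu
    · have e1 : ∑ τ ∈ Q ∪ Q.biUnion Fm, θ ^ rank τ
          ≤ ∑ τ ∈ Q, θ ^ rank τ + ∑ τ ∈ Q.biUnion Fm, θ ^ rank τ := by
        rw [← sum_union_inter]
        have : 0 ≤ ∑ τ ∈ Q ∩ Q.biUnion Fm, θ ^ rank τ :=
          sum_nonneg (fun _ _ => pow_nonneg hθ0.le _)
        linarith
      have e2 : ∑ τ ∈ Q.biUnion Fm, θ ^ rank τ ≤ ∑ σ ∈ Q, ∑ τ ∈ Fm σ, θ ^ rank τ :=
        sum_biUnion_le Q Fm (fun τ => θ ^ rank τ) (fun _ => pow_nonneg hθ0.le _)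
      have e3 : ∑ σ ∈ Q, ∑ τ ∈ Fm σ, θ ^ rank τ ≤ ∑ σ ∈ Q, θ ^ rank σ * (θ * D) := by
        apply sum_le_sum
        intro σ _
        have f1 : ∀ τ ∈ Fm σ, θ ^ rank τ ≤ θ ^ (rank σ + 1) := by
          intro τ hτ
          obtain ⟨h1, h2⟩ := (hmemF σ τ).1 hτ
          obtain ⟨h3, _⟩ := mem_fst.1 h1
          exact pow_le_pow_of_le_one hθ0.le hθ1 (hrank _ _ h3 h2)
        have f2 : ((Fm σ).card : ℝ) ≤ D := by
          have f3 : (Fm σ).card ≤ (fst R (U m) σ).card := by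
            apply card_le_card
            intro t ht
            exact ((hmemF σ t).1 ht).1
          have f4 := f3.trans (fst_card (R := R) hM hup hpl (hU m) (hUt m) (hmono m) σ)
          rw [← hD] at f4
          exact_mod_cast f4
        calc ∑ τ ∈ Fm σ, θ ^ rank τ ≤ ∑ τ ∈ Fm σ, θ ^ (rank σ + 1) := sum_le_sum f1
          _ = (Fm σ).card * θ ^ (rank σ + 1) := by rw [sum_const, nsmul_eq_mul]
          _ ≤ D * θ ^ (rank σ + 1) := mul_le_mul_of_nonneg_right f2 (pow_nonneg hθ0.le _)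
          _ = θ ^ rank σ * (θ * D) := by rw [pow_succ]; ring
      rw [← sum_mul] at e3
      have e4 : ∑ τ ∈ Q, θ ^ rank τ + (∑ σ ∈ Q, θ ^ rank σ) * (θ * D)
          = (∑ σ ∈ Q, θ ^ rank σ) * Y := by rw [hY]; ring
      calc _ ≤ (∑ σ ∈ Q, θ ^ rank σ) * Y := by linarith
        _ ≤ Y ^ m * Y := mul_le_mul_of_nonneg_right hQ2 (by linarith)
        _ = Y ^ (m + 1) := by ring
    · have e1 : ((L ∪ Lm).card : ℝ) ≤ L.card + Lm.card := by
        exact_mod_cast card_union_le L Lm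
      have e2 : Y ^ m * ((θ ^ M)⁻¹ * (D * ρ)) ≤ Y ^ (m + 1) * ((θ ^ M)⁻¹ * (D * ρ)) := by
        apply mul_le_mul_of_nonneg_right _ (by positivity)
        exact pow_le_pow_right₀ hY1 (Nat.le_succ m)
      have e3 : (m : ℝ) * (Y ^ m * ((θ ^ M)⁻¹ * (D * ρ)))
          ≤ m * (Y ^ (m + 1) * ((θ ^ M)⁻¹ * (D * ρ))) :=
        mul_le_mul_of_nonneg_left e2 (Nat.cast_nonneg _)
      push_cast
      linarith
    · intro x hx u hex
      rw [mem_union] at hx
      push Not at hx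
      obtain ⟨τ, hτQ, hτc, hτU⟩ := hcov x hx.1 u (fun i hi => hex i (by omega))
      by_cases hin : τ ∈ U m (u m)
      · refine ⟨τ, mem_union_left _ hτQ, hτc, ?_⟩
        intro i hi
        rcases Nat.lt_succ_iff_lt_or_eq.1 hi with h | rfl
        · exact hτU i h
        · exact hin
      · obtain ⟨t1, ht1, htc1⟩ := hex m (by omega)
        obtain ⟨t, ht, htc, htU⟩ := exists_fst (R := R) (τ := t₀) hpos hrank (hmono m)
          ⟨t1, ht1, htc1, htop t1⟩
        have hnc : ¬ Cross τ t := by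
          intro hc
          apply hx.2
          rw [hLm, mem_biUnion]
          exact ⟨(τ, t), mem_product.2 ⟨hτQ, ht⟩, mem_filter.2 ⟨mem_univ _, ⟨hτc, htc⟩, hc⟩⟩
        obtain ⟨c, hc1, hc2, hc3, hc4⟩ := hjoin x τ t (hQ1 τ hτQ) (hFok t ht) hτc htc hnc
        have hcU : c ∈ U m (u m) := (hU m (u m)).up hneg htU hc1 hc4
        obtain ⟨t', ht', htc', htU'⟩ := exists_fst (R := R) (τ := τ) hpos hrank (hmono m)
          ⟨c, hcU, hc2, hc3⟩
        obtain ⟨h1, v, hv, _⟩ := mem_fst.1 ht'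
        have hok' : ok t' := hUt m _ t' htU'
        refine ⟨t', mem_union_right _ (mem_biUnion.2 ⟨τ, hτQ, (hmemF τ t').2 ⟨ht', ?_⟩⟩), htc', ?_⟩
        · intro h2
          exact hin ((hU m (u m)).up hneg htU' (hQ1 τ hτQ) h2)
        · intro i hi
          rcases Nat.lt_succ_iff_lt_or_eq.1 hi with h | rfl
          · exact (hU i (u i)).up hneg (hτU i h) hok' h1
          · exact htU'

open Classical in
/-- The inputs lost at a gate of fan-in at most `f`. -/
lemma exists_lost (hrefl : ∀ a, R a a) (htr : ∀ a b c, R a b → R b c → R a c)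
    (hneg : ∀ w a b, neg w a → R a b → neg w b) (hpos : ∀ x a b, pos x a → R a b → pos x b)
    (hok0 : ok t₀) (hpos0 : ∀ x, pos x t₀) (htop : ∀ t, R t t₀)
    (hM : ∀ t, rank t ≤ M) (hrank : ∀ a b, R a b → ¬ R b a → rank b < rank a)
    (hup : ∀ a b, ok a → R a b → ok b)
    (hjoin : ∀ x a b, ok a → ok b → pos x a → pos x b → ¬ Cross a b →
      ∃ c, ok c ∧ pos x c ∧ R c a ∧ R c b)
    (hcross : ∀ a b, ok a → ok b → Cross a b →
      (univ.filter (fun x => pos x a ∧ pos x b)).card ≤ ρ)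
    (hpl : Pluck ok R rank neg B Δ) (hB : 1 ≤ B) (f : ℕ) (hf : 1 ≤ f) (f' : ℕ) (hf' : f' ≤ f)
    (U : Fin f' → ℝ → Finset T) (hU : ∀ i u, Closed ok neg Δ (U i u))
    (hUt : ∀ i u, ∀ τ ∈ U i u, ok τ) (hmono : ∀ i s t, s ≤ t → U i t ⊆ U i s) :
    ∃ L : Finset X, L.card ≤ (2 * f * (M + 1) * B) ^ (M + 1) * ρ ∧
      ∀ x, x ∉ L → ∀ u : Fin f' → ℝ, (∀ i, ∃ t ∈ U i (u i), pos x t) →
        ∃ τ, ok τ ∧ pos x τ ∧ ∀ i, τ ∈ U i (u i) := by
  obtain ⟨D, hD⟩ : ∃ D : ℕ, D = (M + 1) * B := ⟨_, rfl⟩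
  have hD1 : 1 ≤ D := by rw [hD]; exact Nat.mul_pos (Nat.succ_pos M) hB
  have hDr : (1 : ℝ) ≤ D := by exact_mod_cast hD1
  have hfr : (1 : ℝ) ≤ f := by exact_mod_cast hf
  obtain ⟨θ, hθ⟩ : ∃ θ : ℝ, θ = (2 * f * D : ℝ)⁻¹ := ⟨_, rfl⟩
  have hfD : (1 : ℝ) ≤ 2 * f * D := by nlinarith
  have hθ0 : 0 < θ := by rw [hθ]; positivity
  have hθ1 : θ ≤ 1 := by rw [hθ]; exact inv_le_one_of_one_le₀ hfD
  have hX : (1 + θ * (D : ℝ)) ^ f ≤ 2 := by
    have e0 : θ * D = 1 / (2 * f) := by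
      rw [hθ]
      field_simp
    have e1 : 1 + θ * D ≤ Real.exp (1 / (2 * f)) := by
      rw [e0]
      have e2 := Real.add_one_le_exp (1 / (2 * (f : ℝ)))
      linarith
    calc (1 + θ * D) ^ f ≤ (Real.exp (1 / (2 * f))) ^ f :=
          pow_le_pow_left₀ (by positivity) e1 f
      _ = Real.exp (1 / 2) := by
          rw [← Real.exp_nat_mul]
          congr 1
          field_simp
      _ ≤ 2 := by
          have h1 : Real.exp (1 / 2) ^ 2 = Real.exp 1 := by
            rw [← Real.exp_nat_mul]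
            norm_num
          have h2 := Real.exp_one_lt_d9
          have h3 := Real.exp_pos (1 / 2)
          nlinarith
  obtain ⟨Q, L, g1, g2, g3, g4⟩ := chain_cover (Cross := Cross) (ρ := ρ) hrefl htr hneg hpos hok0
    hpos0 htop hM hrank hup hjoin hcross hpl
    (fun i => if h : i < f' then U ⟨i, h⟩ else fun _ => univ.filter ok) (by
      intro i u
      split_ifs with h
      · exact hU _ u
      · exact fun t ht _ => mem_filter.2 ⟨mem_univ _, ht⟩) (by
      intro i u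
      split_ifs with h
      · exact hUt _ u
      · exact fun τ hτ => (mem_filter.1 hτ).2) (by
      intro i s t hst
      split_ifs with h
      · exact hmono _ s t hst
      · exact Subset.refl _) θ hθ0 hθ1 f
  rw [← hD] at g3
  refine ⟨L, ?_, ?_⟩
  · have e1 : (f : ℝ) * ((1 + θ * (D : ℝ)) ^ f * ((θ ^ M)⁻¹ * (D * ρ)))
        ≤ (2 * f * D) ^ (M + 1) * ρ := by
      have e2 : (θ ^ M)⁻¹ = (2 * f * D : ℝ) ^ M := by
        rw [hθ, inv_pow, inv_inv]
      rw [e2]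
      have e5 : (0 : ℝ) ≤ (2 * f * D : ℝ) ^ M * (D * ρ) := by positivity
      calc (f : ℝ) * ((1 + θ * (D : ℝ)) ^ f * ((2 * f * D : ℝ) ^ M * (D * ρ)))
          ≤ f * (2 * ((2 * f * D : ℝ) ^ M * (D * ρ))) := by
            apply mul_le_mul_of_nonneg_left _ (by positivity)
            exact mul_le_mul_of_nonneg_right hX e5
        _ = _ := by rw [pow_succ]; ring
    have e7 := g3.trans e1
    have e8 : 2 * f * (M + 1) * B = 2 * f * D := by rw [hD]; ring
    rw [e8]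
    exact_mod_cast e7
  · intro x hx u hex
    obtain ⟨τ, h2, h3, h4⟩ := g4 x hx (fun i => if h : i < f' then u ⟨i, h⟩ else 0) (by
      intro i hi
      by_cases h : i < f'
      · simp only [dif_pos h]
        exact hex ⟨i, h⟩
      · simp only [dif_neg h]
        exact ⟨t₀, mem_filter.2 ⟨mem_univ _, hok0⟩, hpos0 x⟩)
    refine ⟨τ, g1 τ h2, h3, ?_⟩
    intro i
    have h5 := h4 i.1 (lt_of_lt_of_le i.2 hf')
    simp only [dif_pos i.2] at h5
    exact h5

/-! ### Approximation of a function -/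

/-- The families `U t` approximate the function with the values `fp x` and `fn w`, outside the set
`L` of inputs `x` and the set `G` of inputs `w`. -/
structure RA (ok : T → Prop) (pos : X → T → Prop) (neg : W → T → Prop) (Δ : ℕ)
    (fp : X → ℝ) (fn : W → ℝ) (U : ℝ → Finset T) (L : Finset X) (G : Finset W) : Prop where
  sub : ∀ t, ∀ τ ∈ U t, ok τ
  closed : ∀ t, Closed ok neg Δ (U t)
  mono : ∀ s t, s ≤ t → U t ⊆ U s
  pos : ∀ x, x ∉ L → ∀ t, t ≤ fp x → ∃ τ ∈ U t, pos x τ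
  neg : ∀ w, w ∉ G → ∀ t, (∃ τ ∈ U t, neg w τ) → t ≤ fn w

lemma RA.weaken {fp : X → ℝ} {fn : W → ℝ} {U : ℝ → Finset T} {L L' : Finset X} {G G' : Finset W}
    (h : RA ok pos neg Δ fp fn U L G) (hL : L ⊆ L') (hG : G ⊆ G') :
    RA ok pos neg Δ fp fn U L' G' :=
  ⟨h.sub, h.closed, h.mono, fun x hx => h.pos x (fun h2 => hx (hL h2)),
    fun w hw => h.neg w (fun h2 => hw (hG h2))⟩

/-- Approximation of a function with a chain of base families. -/
lemma base_ra (S : ℝ → Finset T) (hS : ∀ t, ∀ τ ∈ S t, ok τ) (hmono : ∀ s t, s ≤ t → S t ⊆ S s)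
    (fp : X → ℝ) (fn : W → ℝ) (L : Finset X) (G : Finset W)
    (hp : ∀ x, x ∉ L → ∀ t, t ≤ fp x → ∃ τ ∈ S t, pos x τ)
    (hn : ∀ w, w ∉ G → ∀ t, (∃ τ ∈ S t, neg w τ) → t ≤ fn w) :
    ∃ (U : ℝ → Finset T) (G0 : Finset W),
      G0.card ≤ (Fintype.card T + 1) * (Fintype.card T * Δ) ∧
      ∀ G', G ⊆ G' → G0 ⊆ G' → RA ok pos neg Δ fp fn U L G' := by
  classical
  refine ⟨fun t => clo ok neg Δ (S t), univ.filter (fun w => ∃ t,
      (∃ τ ∈ clo ok neg Δ (S t), neg w τ) ∧ ∀ τ ∈ S t, ¬ neg w τ),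
      chain_err S hS hmono, ?_⟩
  intro G' hG hG0
  refine ⟨fun t => clo_ok, fun t => clo_closed _, fun s t hst => clo_mono (hmono _ _ hst), ?_, ?_⟩
  · intro x hx t ht
    obtain ⟨τ, hτ, hc⟩ := hp x hx t ht
    exact ⟨τ, subset_clo (hS t) hτ, hc⟩
  · intro w hw t hex
    apply hn w (fun h => hw (hG h)) t
    by_contra hcon
    push Not at hcon
    exact hw (hG0 (mem_filter.2 ⟨mem_univ _, t, hex, hcon⟩))

open Classical in
/-- The base families of a gate. -/
noncomputable def gateBase {f : ℕ} (ok : T → Prop) (op : (Fin f → ℝ) → ℝ)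
    (U : Fin f → ℝ → Finset T) (t : ℝ) : Finset T :=
  univ.filter (fun τ => ok τ ∧ ∃ u : Fin f → ℝ, t ≤ op u ∧ ∀ i, τ ∈ U i (u i))

lemma mem_gateBase {f : ℕ} {op : (Fin f → ℝ) → ℝ} {U : Fin f → ℝ → Finset T} {t : ℝ} {τ : T} :
    τ ∈ gateBase ok op U t ↔ ok τ ∧ ∃ u : Fin f → ℝ, t ≤ op u ∧ ∀ i, τ ∈ U i (u i) := by
  classical
  unfold gateBase
  rw [mem_filter]
  exact ⟨fun h => h.2, fun h => ⟨mem_univ _, h⟩⟩

/-- Approximation of a wire. -/
lemma wire_ra (hok0 : ok t₀) (hpos0 : ∀ x, pos x t₀) (C : FCircuit ι)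
    (xpos : X → ι → ℝ) (xneg : W → ι → ℝ)
    (base : ι → ℝ → Finset T) (hbase : ∀ i t, ∀ τ ∈ base i t, ok τ)
    (hbmono : ∀ i s t, s ≤ t → base i t ⊆ base i s)
    (hbpos : ∀ i x t, t ≤ xpos x i → ∃ τ ∈ base i t, pos x τ)
    (hbneg : ∀ i w t, (∃ τ ∈ base i t, neg w τ) → t ≤ xneg w i)
    (m : ℕ) (U : ℕ → ℝ → Finset T) (L : Finset X) (G : Finset W)
    (hU : ∀ j < m, RA ok pos neg Δ (fun x => C.val (xpos x) j) (fun w => C.val (xneg w) j)
      (U j) L G) (a : FWire ι) :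
    ∃ (Ua : ℝ → Finset T) (G0 : Finset W),
      G0.card ≤ (Fintype.card T + 1) * (Fintype.card T * Δ) ∧
      ∀ G', G ⊆ G' → G0 ⊆ G' →
      RA ok pos neg Δ (fun x => a.eval (xpos x) (fun j => if j < m then C.val (xpos x) j else 0))
        (fun w => a.eval (xneg w) (fun j => if j < m then C.val (xneg w) j else 0)) Ua L G' := by
  classical
  cases a with
  | input i =>
    exact base_ra (base i) (hbase i) (hbmono i) (fun x => xpos x i) (fun w => xneg w i) L G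
      (fun x _ t ht => hbpos i x t ht) (fun w _ t ht => hbneg i w t ht)
  | gate j =>
    by_cases hj : j < m
    · refine ⟨U j, ∅, by simp, ?_⟩
      intro G' hG _
      have h2 := (hU j hj).weaken (Subset.refl L) hG
      unfold FWire.eval
      simp only [if_pos hj]
      exact h2
    · obtain ⟨Ua, G0, hG0, hA⟩ := base_ra (pos := pos) (neg := neg) (Δ := Δ) (ok := ok)
        (fun t : ℝ => if t ≤ 0 then {t₀} else ∅) (by
          intro t τ hτ
          split_ifs at hτ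
          · rw [mem_singleton] at hτ
            rw [hτ]
            exact hok0
          · exact absurd hτ (notMem_empty _)) (by
          intro s t hst
          split_ifs with g1 g2
          · exact Subset.refl _
          · exact absurd (le_trans hst g1) g2
          · exact empty_subset _
          · exact Subset.refl _)
        (fun _ => 0) (fun _ => 0) L G (by
          intro x _ t ht
          rw [if_pos ht]
          exact ⟨_, mem_singleton_self _, hpos0 x⟩) (by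
          intro w _ t hex
          by_contra hcon
          rw [if_neg hcon] at hex
          obtain ⟨τ, hτ, _⟩ := hex
          exact absurd hτ (notMem_empty _))
      refine ⟨Ua, G0, hG0, ?_⟩
      intro G' hG hG0'
      have h2 := hA G' hG hG0'
      unfold FWire.eval
      simp only [if_neg hj]
      exact h2

open Classical in
/-- Approximation of a gate of fan-in at most `f`. -/
lemma gate_ra (hrefl : ∀ a, R a a) (htr : ∀ a b c, R a b → R b c → R a c)
    (hneg : ∀ w a b, neg w a → R a b → neg w b) (hpos : ∀ x a b, pos x a → R a b → pos x b)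
    (hok0 : ok t₀) (hpos0 : ∀ x, pos x t₀) (htop : ∀ t, R t t₀)
    (hM : ∀ t, rank t ≤ M) (hrank : ∀ a b, R a b → ¬ R b a → rank b < rank a)
    (hup : ∀ a b, ok a → R a b → ok b)
    (hjoin : ∀ x a b, ok a → ok b → pos x a → pos x b → ¬ Cross a b →
      ∃ c, ok c ∧ pos x c ∧ R c a ∧ R c b)
    (hcross : ∀ a b, ok a → ok b → Cross a b →
      (univ.filter (fun x => pos x a ∧ pos x b)).card ≤ ρ)
    (hpl : Pluck ok R rank neg B Δ) (hB : 1 ≤ B) (f : ℕ) (hf : 1 ≤ f) (f' : ℕ) (hf' : f' ≤ f)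
    (op : (Fin f' → ℝ) → ℝ) (hop : ∀ u v : Fin f' → ℝ, (∀ i, u i ≤ v i) → op u ≤ op v)
    {fp : Fin f' → X → ℝ} {fn : Fin f' → W → ℝ} {U : Fin f' → ℝ → Finset T} {L : Finset X}
    {G : Finset W} (hA : ∀ i, RA ok pos neg Δ (fp i) (fn i) (U i) L G) :
    ∃ (U' : ℝ → Finset T) (G0 : Finset W) (L0 : Finset X),
      G0.card ≤ (Fintype.card T + 1) * (Fintype.card T * Δ) ∧
      L0.card ≤ (2 * f * (M + 1) * B) ^ (M + 1) * ρ ∧
      RA ok pos neg Δ (fun x => op (fun i => fp i x)) (fun w => op (fun i => fn i w)) U'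
        (L ∪ L0) (G ∪ G0) := by
  obtain ⟨L0, hL0, hcov⟩ := exists_lost (Cross := Cross) (ρ := ρ) hrefl htr hneg hpos hok0
    hpos0 htop hM hrank hup hjoin hcross hpl hB f hf f' hf' U (fun i => (hA i).closed)
    (fun i => (hA i).sub) (fun i => (hA i).mono)
  obtain ⟨U', G0, hG0, hRA⟩ := base_ra (pos := pos) (neg := neg) (Δ := Δ) (ok := ok)
    (fun t => gateBase ok op U t) (fun t τ hτ => (mem_gateBase.1 hτ).1) (by
      intro s t hst τ hτ
      obtain ⟨h1, u, h2, h3⟩ := mem_gateBase.1 hτ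
      exact mem_gateBase.2 ⟨h1, u, hst.trans h2, h3⟩)
    (fun x => op (fun i => fp i x)) (fun w => op (fun i => fn i w)) (L ∪ L0) G (by
      intro x hx t ht
      rw [mem_union] at hx
      push Not at hx
      obtain ⟨τ, hτ, hc, hτU⟩ := hcov x hx.2 (fun i => fp i x)
        (fun i => (hA i).pos x hx.1 (fp i x) le_rfl)
      exact ⟨τ, mem_gateBase.2 ⟨hτ, fun i => fp i x, ht, hτU⟩, hc⟩) (by
      intro w hw t hex
      obtain ⟨τ, hτ, hg⟩ := hex
      obtain ⟨_, u, huv, hτ1⟩ := mem_gateBase.1 hτ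
      exact huv.trans (hop _ _ (fun i => (hA i).neg w hw (u i) ⟨τ, hτ1 i, hg⟩)))
  exact ⟨U', G0, L0, hG0, hL0, hRA _ subset_union_left subset_union_right⟩

open Classical in
/-- Approximation of all gates. -/
lemma gates_ra (hrefl : ∀ a, R a a) (htr : ∀ a b c, R a b → R b c → R a c)
    (hneg : ∀ w a b, neg w a → R a b → neg w b) (hpos : ∀ x a b, pos x a → R a b → pos x b)
    (hok0 : ok t₀) (hpos0 : ∀ x, pos x t₀) (htop : ∀ t, R t t₀)
    (hM : ∀ t, rank t ≤ M) (hrank : ∀ a b, R a b → ¬ R b a → rank b < rank a)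
    (hup : ∀ a b, ok a → R a b → ok b)
    (hjoin : ∀ x a b, ok a → ok b → pos x a → pos x b → ¬ Cross a b →
      ∃ c, ok c ∧ pos x c ∧ R c a ∧ R c b)
    (hcross : ∀ a b, ok a → ok b → Cross a b →
      (univ.filter (fun x => pos x a ∧ pos x b)).card ≤ ρ)
    (hpl : Pluck ok R rank neg B Δ) (hB : 1 ≤ B) (f : ℕ) (hf : 1 ≤ f)
    (C : FCircuit ι) (hC : C.FanInLe f) (xpos : X → ι → ℝ) (xneg : W → ι → ℝ)
    (base : ι → ℝ → Finset T) (hbase : ∀ i t, ∀ τ ∈ base i t, ok τ)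
    (hbmono : ∀ i s t, s ≤ t → base i t ⊆ base i s)
    (hbpos : ∀ i x t, t ≤ xpos x i → ∃ τ ∈ base i t, pos x τ)
    (hbneg : ∀ i w t, (∃ τ ∈ base i t, neg w τ) → t ≤ xneg w i) (m : ℕ) (hm : m ≤ C.size) :
    ∃ (U : ℕ → ℝ → Finset T) (L : Finset X) (G : Finset W),
      L.card ≤ m * ((2 * f * (M + 1) * B) ^ (M + 1) * ρ) ∧
      G.card ≤ m * ((f + 1) * ((Fintype.card T + 1) * (Fintype.card T * Δ))) ∧
      ∀ j < m, RA ok pos neg Δ (fun x => C.val (xpos x) j) (fun w => C.val (xneg w) j)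
        (U j) L G := by
  obtain ⟨E, hE⟩ : ∃ E : ℕ, E = (Fintype.card T + 1) * (Fintype.card T * Δ) := ⟨_, rfl⟩
  rw [← hE]
  induction m with
  | zero =>
    refine ⟨fun _ _ => ∅, ∅, ∅, by simp, by simp, ?_⟩
    intro j hj
    exact absurd hj (Nat.not_lt_zero _)
  | succ m ih =>
    obtain ⟨U, L, G, hL, hG, hU⟩ := ih (by omega)
    have hval : ∀ z : ι → ℝ, C.val z m
        = (C.gate m).op (fun l => ((C.gate m).wire l).eval z
          (fun j => if j < m then C.val z j else 0)) := by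
      intro z
      rw [FCircuit.val]
      congr 1
    have hfm := hC m (by omega)
    have hw := fun l : Fin (C.gate m).fanIn => wire_ra (pos := pos) (neg := neg) (Δ := Δ) hok0 hpos0
      C xpos xneg base hbase hbmono hbpos hbneg m U L G hU ((C.gate m).wire l)
    choose Uw Gw hGw hAw using hw
    have hAw' := fun l => hAw l (G ∪ univ.biUnion Gw) subset_union_left
      ((subset_biUnion_of_mem Gw (mem_univ l)).trans subset_union_right)
    obtain ⟨Um, G0, L0, hG0, hL0, hA⟩ := gate_ra (Cross := Cross) (ρ := ρ) hrefl htr hneg hpos hok0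
      hpos0 htop hM hrank hup hjoin hcross hpl hB f hf (C.gate m).fanIn hfm (C.gate m).op
      (C.gate m).mono hAw'
    rw [← hE] at hG0
    refine ⟨Function.update U m Um, L ∪ L0, (G ∪ univ.biUnion Gw) ∪ G0, ?_, ?_, ?_⟩
    · refine (card_union_le _ _).trans ?_
      rw [add_mul, one_mul]
      exact Nat.add_le_add hL hL0
    · have e1 : (univ.biUnion Gw).card ≤ f * E := by
        refine (card_biUnion_le_card_mul _ _ E (fun l _ => by rw [hE]; exact hGw l)).trans ?_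
        rw [card_univ, Fintype.card_fin]
        exact Nat.mul_le_mul_right _ hfm
      have e2 := card_union_le (G ∪ univ.biUnion Gw) G0
      have e3 := card_union_le G (univ.biUnion Gw)
      calc ((G ∪ univ.biUnion Gw) ∪ G0).card ≤ m * ((f + 1) * E) + f * E + E := by omega
        _ = (m + 1) * ((f + 1) * E) := by ring
    · intro j hj
      rcases Nat.lt_succ_iff_lt_or_eq.1 hj with h | rfl
      · rw [Function.update_of_ne (Nat.ne_of_lt h)]
        exact (hU j h).weaken subset_union_left (subset_union_left.trans subset_union_left)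
      · rw [Function.update_self]
        simp only [hval]
        exact hA

end Abs

open Classical in
/-- **The approximation method, abstractly.** -/
theorem approx (T X W ι : Type) [Fintype T] [Fintype X] [Fintype W]
  (ok : T → Prop) (R : T → T → Prop) (rank : T → ℕ) (pos : X → T → Prop) (neg : W → T → Prop)
  (Cross : T → T → Prop) (t₀ : T) (M B ρ Δ f : ℕ) (hf : 1 ≤ f) (hB : 1 ≤ B)
  (hrefl : ∀ a, R a a) (htr : ∀ a b c, R a b → R b c → R a c)
  (hneg : ∀ w a b, neg w a → R a b → neg w b) (hpos : ∀ x a b, pos x a → R a b → pos x b)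
  (hok0 : ok t₀) (hpos0 : ∀ x, pos x t₀) (hneg0 : ∀ w, neg w t₀) (htop : ∀ t, R t t₀)
  (hM : ∀ t, rank t ≤ M) (hrank : ∀ a b, R a b → ¬ R b a → rank b < rank a)
  (hup : ∀ a b, ok a → R a b → ok b)
  (hjoin : ∀ x a b, ok a → ok b → pos x a → pos x b → ¬ Cross a b →
    ∃ c, ok c ∧ pos x c ∧ R c a ∧ R c b)
  (hcross : ∀ a b, ok a → ok b → Cross a b → (univ.filter (fun x => pos x a ∧ pos x b)).card ≤ ρ)
  (hpl : ∀ (S : Finset T) (τ : T) (r : ℕ), (∀ t ∈ S, ok t ∧ R t τ ∧ rank t = r) → B < S.card →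
    ∃ s, ∃ L ⊆ S, L.Nonempty ∧ R s τ ∧ (∀ t ∈ L, R t s ∧ ¬ R s t) ∧
      (univ.filter (fun w => neg w s ∧ ∀ t ∈ L, ¬ neg w t)).card ≤ Δ)
  (C : FCircuit ι) (hC : C.FanInLe f) (xpos : X → ι → ℝ) (xneg : W → ι → ℝ)
  (base : ι → ℝ → Finset T) (hbase : ∀ i t, ∀ τ ∈ base i t, ok τ)
  (hbmono : ∀ i s t, s ≤ t → base i t ⊆ base i s)
  (hbpos : ∀ i x t, t ≤ xpos x i → ∃ τ ∈ base i t, pos x τ)
  (hbneg : ∀ i w t, (∃ τ ∈ base i t, neg w τ) → t ≤ xneg w i) :
  ∃ L : Finset X, L.card ≤ C.size * ((2 * f * (M + 1) * B) ^ (M + 1) * ρ) ∧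
    ∀ x, x ∉ L → ∃ τ, ok τ ∧ pos x τ ∧
      (univ.filter (fun w => neg w τ ∧ C.eval (xneg w) < C.eval (xpos x))).card
        ≤ (C.size + 1) * ((f + 1) * ((Fintype.card T + 1) * (Fintype.card T * Δ))) := by
  obtain ⟨U, L, G, hL, hG, hU⟩ := gates_ra (Cross := Cross) (ρ := ρ) hrefl htr hneg hpos hok0
    hpos0 htop hM hrank hup hjoin hcross hpl hB f hf C hC xpos xneg base hbase hbmono hbpos hbneg
    C.size le_rfl
  obtain ⟨Uo, G0, hG0, hA⟩ := wire_ra (pos := pos) (neg := neg) (Δ := Δ) hok0 hpos0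
      C xpos xneg base hbase hbmono hbpos hbneg C.size U L G hU C.out
  have hA' := hA (G ∪ G0) subset_union_left subset_union_right
  refine ⟨L, hL, ?_⟩
  intro x hx
  obtain ⟨τ, hτ, hτx⟩ := hA'.pos x hx (C.eval (xpos x)) le_rfl
  refine ⟨τ, hA'.sub _ τ hτ, hτx, ?_⟩
  have h1 : univ.filter (fun w => neg w τ ∧ C.eval (xneg w) < C.eval (xpos x)) ⊆ G ∪ G0 := by
    intro w hw
    obtain ⟨_, h2, h3⟩ := mem_filter.1 hw
    by_contra hcon
    have h4 := hA'.neg w hcon _ ⟨τ, hτ, h2⟩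
    exact absurd h3 (not_lt.2 h4)
  refine (card_le_card h1).trans ((card_union_le _ _).trans ?_)
  obtain ⟨E, hE⟩ : ∃ E : ℕ, E = (Fintype.card T + 1) * (Fintype.card T * Δ) := ⟨_, rfl⟩
  rw [← hE] at hG0 hG ⊢
  calc G.card + G0.card ≤ C.size * ((f + 1) * E) + E := Nat.add_le_add hG hG0
    _ ≤ C.size * ((f + 1) * E) + (f + 1) * E :=
        Nat.add_le_add_left (Nat.le_mul_of_pos_left _ (Nat.succ_pos f)) _
    _ = _ := by ring

end Pool.Agent.T9h8.SC
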